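import Pool.Agent.R550.PS.Main
import Pool.Agent.R550.GB.Build
import Pool.Agent.NPC.Classes
import Pool.Agent.H622R2.CoNP
import Pool.Agent.H671R2.Search

/-!
# Deciding irreducibility is coNP-hard
-/

namespace Pool.Agent.R550.PS

open Pool.Agent.NPC

/-- The reduction. -/
def redF (φ : Fml) : List (List ℕ) × List (List ℕ) :=
  (adjL (nF φ) (midF φ), pathL (nF φ) (midF φ))

section

variable {α : Type} [TEnc α]

theorem poly_litA {φ : α → Fml} {a : α → ℕ} (hφ : NPC.Poly φ) (ha : NPC.Poly a) :
    NPC.Poly (fun x => litA (φ x) (a x)) := by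
  unfold litA
  fun_prop

theorem poly_conf {φ : α → Fml} {a b : α → ℕ} (hφ : NPC.Poly φ) (ha : NPC.Poly a)
    (hb : NPC.Poly b) : NPC.Poly (fun x => conf (φ x) (a x) (b x)) := by
  unfold conf
  have h1 := poly_litA hφ ha
  have h2 := poly_litA hφ hb
  have h3 : NPC.Poly (fun x => (litA (φ x) (a x)).1 != (litA (φ x) (b x)).1) := by
    refine (NPC.Poly.xor (NPC.Poly.fst h1) (NPC.Poly.fst h2)).congr fun x => ?_
    cases (litA (φ x) (a x)).1 <;> cases (litA (φ x) (b x)).1 <;> rfl
  exact NPC.Poly.and (NPC.Poly.decide_eq (NPC.Poly.snd h1) (NPC.Poly.snd h2)) h3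

theorem poly_core {a b : α → ℕ} (ha : NPC.Poly a) (hb : NPC.Poly b) :
    NPC.Poly (fun x => core (a x) (b x)) := by
  unfold core
  fun_prop

theorem poly_midF {φ : α → Fml} {a b : α → ℕ} (hφ : NPC.Poly φ) (ha : NPC.Poly a)
    (hb : NPC.Poly b) : NPC.Poly (fun x => midF (φ x) (a x) (b x)) := by
  unfold midF
  have h1 := poly_core ha hb
  have h2 : NPC.Poly (fun x => conf (φ x) (a x - (9 + 4 * (φ x).length))
      (b x - (9 + 4 * (φ x).length))) := poly_conf hφ (by fun_prop) (by fun_prop)
  fun_prop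

end

theorem upoly_nF : UPoly nF := by
  unfold nF
  exact UPoly.add (UPoly.const 9) (UPoly.mul (UPoly.const 8) (UPoly.length NPC.Poly.id))

theorem poly_adjL : NPC.Poly (fun φ : Fml => adjL (nF φ) (midF φ)) := by
  unfold adjL
  refine NPC.Poly.map (F := fun (φ : Fml) u => (List.range (nF φ)).filter fun v =>
    decide (u < v) && (midF φ u v).isNone) upoly_nF.range ?_
  refine NPC.Poly.filter (p := fun (p : Fml × ℕ) v =>
    decide (p.2 < v) && (midF p.1 p.2 v).isNone) (upoly_nF.range.comp (NPC.Poly.fst NPC.Poly.id)) ?_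
  have h1 : NPC.Poly (fun q : (Fml × ℕ) × ℕ => midF q.1.1 q.1.2 q.2) :=
    poly_midF (by fun_prop) (by fun_prop) (by fun_prop)
  have h2 : NPC.Poly (fun q : (Fml × ℕ) × ℕ => (midF q.1.1 q.1.2 q.2).isNone) := by
    refine (NPC.Poly.optElim (g := fun _ => true) (h := fun _ _ => false) h1 (NPC.Poly.const _)
      (NPC.Poly.const _)).congr fun q => ?_
    cases midF q.1.1 q.1.2 q.2 <;> rfl
  fun_prop

theorem pathL_min (n : ℕ) (mid : ℕ → ℕ → Option ℕ) : pathL n mid =
    (List.range n).flatMap fun v => (List.range (min v n)).map fun u => pth mid u v := by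
  unfold pathL
  rw [List.flatMap_congr]
  intro v hv
  rw [min_eq_left (List.mem_range.1 hv).le]

theorem poly_pathL : NPC.Poly (fun φ : Fml => pathL (nF φ) (midF φ)) := by
  have h0 : (fun φ : Fml => pathL (nF φ) (midF φ)) = fun φ =>
      (List.range (nF φ)).flatMap fun v => (List.range (min v (nF φ))).map fun u =>
        pth (midF φ) u v := funext fun φ => pathL_min _ _
  rw [h0]
  refine NPC.Poly.flatMap (F := fun (φ : Fml) v => (List.range (min v (nF φ))).map fun u =>
    pth (midF φ) u v) upoly_nF.range ?_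
  have hr : NPC.Poly (fun p : Fml × ℕ => List.range (min p.2 (nF p.1))) :=
    (UPoly.of_le (NPC.Poly.min (NPC.Poly.snd NPC.Poly.id)
      (upoly_nF.toPoly.comp (NPC.Poly.fst NPC.Poly.id))) (upoly_nF.comp (NPC.Poly.fst NPC.Poly.id))
      (fun p => Nat.min_le_right _ _)).range
  refine NPC.Poly.map (F := fun (p : Fml × ℕ) u => pth (midF p.1) u p.2) hr ?_
  have h1 : NPC.Poly (fun q : (Fml × ℕ) × ℕ => midF q.1.1 q.2 q.1.2) :=
    poly_midF (by fun_prop) (by fun_prop) (by fun_prop)
  refine (NPC.Poly.optElim (g := fun q : (Fml × ℕ) × ℕ => [q.2, q.1.2])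
    (h := fun (q : (Fml × ℕ) × ℕ) w => [q.2, w, q.1.2]) h1 (by fun_prop)
    (by fun_prop)).congr fun q => ?_
  unfold pth
  cases midF q.1.1 q.2 q.1.2 <;> rfl

theorem poly_redF : NPC.Poly redF := NPC.Poly.pair poly_adjL poly_pathL

/-- The instances: consistent path systems. -/
def Inst (x : List (List ℕ) × List (List ℕ)) : Prop := PathSystem x.1 x.2 ∧ Consistent x.2

/-- Deciding the existence of a reduction is NP-hard. -/
theorem hard : HardPr Inst (fun x => ∃ S : ℕ → Prop, IsReduction x.1.length x.2 S) := by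
  refine hardPr_SAT3.trans poly_redF (fun φ _ => ?_) (fun φ hφ => ?_)
  · exact ⟨pathSystem (good φ), consistent (good φ)⟩
  · have e : (redF φ).1.length = nF φ := adjL_length
    rw [e]
    constructor
    · exact complete
    · rintro ⟨S, hS⟩
      exact sound hφ hS

/-- A polynomial-time decision algorithm for irreducibility would give `P = NP`. -/
theorem collapse {F : List Bool → List Bool} (hF : PolyTime F)
    (h : ∀ A P, PathSystem A P → Consistent P →
      (F (bits (A, P)) = [true] ↔ Irreducible A.length P)) : ∀ L, InNP L → InP L := by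
  refine hard.collapse (d := fun x => !decide (F (bits x) = [true])) ?_ ?_
  · exact NPC.Poly.not (NPC.Poly.decide_eq ((Pool.Agent.H622R2.poly_of_polyTime hF).comp
      R671.poly_bits) (NPC.Poly.const [true]))
  · rintro ⟨A, P⟩ ⟨h1, h2⟩
    have h3 := h A P h1 h2
    unfold Irreducible at h3
    simp only [Bool.not_eq_true', decide_eq_false_iff_not, h3, not_not]

end Pool.Agent.R550.PS
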