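import Pool.Agent.R550.GB.Graph

/-!
# Consistent path systems and their reductions

Vertices are the numbers `0, …, n - 1`, where `n` is the length of the list `A` of adjacency lists;
the graph is `GB.graph A`. A path is given by the list of its vertices, in either direction.
-/

namespace Pool.Agent.R550.PS

open Pool.Agent.R550.GB

/-- The adjacency relation of the graph of `A`, for natural numbers. -/
def AdjN (A : List (List ℕ)) (u v : ℕ) : Prop :=
  ∃ (hu : u < A.length) (hv : v < A.length), (graph A).Adj ⟨u, hu⟩ ⟨v, hv⟩

/-- `p` lists the vertices of a simple path (with at least two vertices) in the graph of `A`. -/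
structure IsPath (A : List (List ℕ)) (p : List ℕ) : Prop where
  lt : ∀ x ∈ p, x < A.length
  nodup : p.Nodup
  chain : p.IsChain (AdjN A)
  two : 2 ≤ p.length

/-- The path `p` joins `u` and `v`. -/
def Joins (p : List ℕ) (u v : ℕ) : Prop :=
  (p.head? = some u ∧ p.getLast? = some v) ∨ (p.head? = some v ∧ p.getLast? = some u)

/-- `P` is a path system in the graph of `A`: a list of simple paths such that any two distinct
vertices are joined by exactly one member. -/
structure PathSystem (A P : List (List ℕ)) : Prop where
  path : ∀ p ∈ P, IsPath A p
  nodup : P.Nodup
  unique : ∀ u v, u < A.length → v < A.length → u ≠ v → ∃! p, p ∈ P ∧ Joins p u v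

/-- `P` is consistent: every subpath (contiguous part) `q` of a member is itself a member, up to its
direction. (As the members are determined by their ends, this says that the `x`-`y` subpath of a
member through `x` and `y` is the member joining `x` and `y`.) -/
def Consistent (P : List (List ℕ)) : Prop :=
  ∀ p ∈ P, ∀ q, q <:+: p → 2 ≤ q.length → q ∈ P ∨ q.reverse ∈ P

/-- The partition of the `n` vertices into the set `S` and its complement is a reduction of the path
system `P`: both parts are nonempty, and whenever the two ends of a member of `P` are in the same
part, all its vertices are in this part. -/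
def IsReduction (n : ℕ) (P : List (List ℕ)) (S : ℕ → Prop) : Prop :=
  (∃ u < n, S u) ∧ (∃ u < n, ¬ S u) ∧ ∀ p ∈ P, ∀ u v, Joins p u v →
    (S u → S v → ∀ w ∈ p, S w) ∧ (¬ S u → ¬ S v → ∀ w ∈ p, ¬ S w)

/-- `P` is irreducible: it has no reduction. -/
def Irreducible (n : ℕ) (P : List (List ℕ)) : Prop := ¬ ∃ S : ℕ → Prop, IsReduction n P S

end Pool.Agent.R550.PS
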