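import Pool.Agent.R550.PS.Red

/-!
# Correctness of the reduction
-/

namespace Pool.Agent.R550.PS

open Pool.Agent.NPC

variable {φ : Fml}

theorem litA0 {j : ℕ} (hj : j < φ.length) : litA φ (3 * j) = φ[j].1 := by
  unfold litA
  rw [if_pos (by omega), show 3 * j / 3 = j by omega, List.getD_eq_getElem _ _ hj]

theorem litA1 {j : ℕ} (hj : j < φ.length) : litA φ (3 * j + 1) = φ[j].2.1 := by
  unfold litA
  rw [if_neg (by omega), if_pos (by omega), show (3 * j + 1) / 3 = j by omega,
    List.getD_eq_getElem _ _ hj]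

theorem litA2 {j : ℕ} (hj : j < φ.length) : litA φ (3 * j + 2) = φ[j].2.2 := by
  unfold litA
  rw [if_neg (by omega), if_neg (by omega), show (3 * j + 2) / 3 = j by omega,
    List.getD_eq_getElem _ _ hj]

/-! ### Values of the midpoint function -/

theorem mid_chain {k : ℕ} (h1 : 9 ≤ k) (h2 : k < 8 + 4 * φ.length) :
    midF φ (k % 2) (k - 1) = some k := by
  unfold midF
  rw [if_neg (by omega), if_pos (by omega), if_pos (by omega)]
  congr 1
  omega

theorem mid_67 (h : 0 < φ.length) : midF φ 6 7 = some 8 := by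
  unfold midF
  rw [if_pos (by omega), if_pos ⟨rfl, rfl⟩, if_pos h]

theorem mid_t {a : ℕ} (h : a < 4 * φ.length) :
    midF φ (8 + a) (8 + 4 * φ.length) = some (9 + 4 * φ.length + a) := by
  unfold midF
  rw [if_neg (by omega), if_neg (by omega), if_pos rfl, if_pos (by omega)]
  congr 1
  omega

theorem mid_conf {a b : ℕ} (hab : a < b) (hb : b < 3 * φ.length) (h : conf φ a b = true) :
    midF φ (9 + 4 * φ.length + a) (9 + 4 * φ.length + b) = some 0 := by
  unfold midF
  rw [if_neg (by omega), if_neg (by omega), if_neg (by omega), if_neg (by omega),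
    if_pos (by omega), Nat.add_sub_cancel_left, Nat.add_sub_cancel_left, if_pos h]

theorem mid_cl1 {j : ℕ} (hj : j < φ.length) (h : conf φ (3 * j) (3 * j + 1) = false) :
    midF φ (9 + 4 * φ.length + 3 * j) (9 + 4 * φ.length + (3 * j + 1)) =
      some (9 + 7 * φ.length + j) := by
  unfold midF
  rw [if_neg (by omega), if_neg (by omega), if_neg (by omega), if_neg (by omega),
    if_pos (by omega), Nat.add_sub_cancel_left, Nat.add_sub_cancel_left, if_neg (by rw [h]; simp),
    if_pos (by omega)]
  congr 1
  omega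

theorem mid_cl2 {j : ℕ} (hj : j < φ.length) :
    midF φ (9 + 4 * φ.length + (3 * j + 2)) (9 + 7 * φ.length + j) =
      some (8 + 4 * φ.length) := by
  unfold midF
  rw [if_neg (by omega), if_neg (by omega), if_neg (by omega), if_neg (by omega),
    if_neg (by omega), if_pos (by omega)]

theorem core_mono_b : ∀ b0 b1 b2 b3 b4 b5 b6 b7 : Bool,
    (!((!(b0 == b3) || (b4 == b0)) && ((!(b0 == b5) || (b6 == b0)) &&
      ((!(b1 == b2) || (b0 == b1)) && ((!(b1 == b4) || (b5 == b1)) &&
      ((!(b2 == b4) || (b7 == b2)) && ((!(b2 == b6) || (b0 == b2)) &&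
      ((!(b3 == b5) || (b2 == b3)) && ((!(b3 == b7) || (b1 == b3)) &&
      ((!(b4 == b6) || (b3 == b4)) && (!(b5 == b7) || (b4 == b5))))))))))) ||
    ((b1 == b0) && ((b2 == b0) && ((b3 == b0) && ((b4 == b0) && ((b5 == b0) &&
      ((b6 == b0) && (b7 == b0)))))))) = true := by
  decide

theorem imp_b {a b c d : Bool} (h : a = b → c = d) : (!(a == b) || (c == d)) = true := by
  by_cases h1 : a = b
  · simp [h h1]
  · simp [h1]

theorem core_mono (b0 b1 b2 b3 b4 b5 b6 b7 : Bool) (h1 : b0 = b3 → b4 = b0)
    (h2 : b0 = b5 → b6 = b0) (h3 : b1 = b2 → b0 = b1) (h4 : b1 = b4 → b5 = b1)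
    (h5 : b2 = b4 → b7 = b2) (h6 : b2 = b6 → b0 = b2) (h7 : b3 = b5 → b2 = b3)
    (h8 : b3 = b7 → b1 = b3) (h9 : b4 = b6 → b3 = b4) (h10 : b5 = b7 → b4 = b5) :
    b1 = b0 ∧ b2 = b0 ∧ b3 = b0 ∧ b4 = b0 ∧ b5 = b0 ∧ b6 = b0 ∧ b7 = b0 := by
  have h := core_mono_b b0 b1 b2 b3 b4 b5 b6 b7
  rw [imp_b h1, imp_b h2, imp_b h3, imp_b h4, imp_b h5, imp_b h6, imp_b h7, imp_b h8, imp_b h9,
    imp_b h10] at h
  simp only [Bool.and_self, Bool.not_true, Bool.false_or, Bool.and_eq_true, beq_iff_eq] at h
  exact h

theorem same3 {a b w s : Prop} (h : (a ↔ b) → (w ↔ a)) (ha : a ↔ s) (hb : b ↔ s) : w ↔ s := by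
  tauto

theorem opp3 {a b w s : Prop} (h : (a ↔ b) → (w ↔ a)) (ha : ¬ (a ↔ s)) (hb : ¬ (b ↔ s)) :
    ¬ (w ↔ s) := by
  tauto

/-- In a clause the literals of the first two occurrences are not complementary. -/
theorem conf_clause (h : Distinct3 φ) {j : ℕ} (hj : j < φ.length) :
    conf φ (3 * j) (3 * j + 1) = false := by
  have h1 := (h _ (List.getElem_mem hj)).1
  unfold conf
  rw [litA0 hj, litA1 hj]
  simp [h1]

theorem sound (hφ : Distinct3 φ) {S : ℕ → Prop} (h : IsReduction (nF φ) (pathL (nF φ) (midF φ)) S) :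
    SAT3 φ := by
  classical
  rw [reduction_iff] at h
  obtain ⟨⟨x1, hx1, hSx1⟩, ⟨x2, hx2, hSx2⟩, H⟩ := h
  unfold nF at hx1 hx2 H
  set m := φ.length with hm
  -- the same side
  have Hs : ∀ u v w, u < v → v < 9 + 8 * m → midF φ u v = some w → (S u ↔ S v) →
      (S w ↔ S u) := by
    intro u v w huv hv hmid hs
    obtain ⟨g1, g2⟩ := H u v w huv hv hmid
    clear H hSx1 hSx2 hx1 hx2 hφ
    by_cases hu : S u
    · exact ⟨fun _ => hu, fun _ => g1 hu (hs.1 hu)⟩
    · have hv' : ¬ S v := fun h => hu (hs.2 h)
      exact ⟨fun h => absurd h (g2 hu hv'), fun h => absurd h hu⟩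
  have Hb : ∀ u v w, u < v → v < 9 + 8 * m → midF φ u v = some w →
      (decide (S u) = decide (S v) → decide (S w) = decide (S u)) := by
    intro u v w huv hv hmid hs
    rw [decide_eq_decide] at hs ⊢
    exact Hs u v w huv hv hmid hs
  have hc : ∀ u v w, u < v → v < 8 → ¬ (u = 6 ∧ v = 7) → core u v = some w →
      (decide (S u) = decide (S v) → decide (S w) = decide (S u)) := by
    intro u v w huv hv h67 hmid
    exact Hb u v w huv (by omega) (by rw [midF_core hv h67]; exact hmid)
  have hcore := core_mono (decide (S 0)) (decide (S 1)) (decide (S 2)) (decide (S 3))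
    (decide (S 4)) (decide (S 5)) (decide (S 6)) (decide (S 7))
    (hc 0 3 4 (by decide) (by decide) (by decide) rfl)
    (hc 0 5 6 (by decide) (by decide) (by decide) rfl)
    (hc 1 2 0 (by decide) (by decide) (by decide) rfl)
    (hc 1 4 5 (by decide) (by decide) (by decide) rfl)
    (hc 2 4 7 (by decide) (by decide) (by decide) rfl)
    (hc 2 6 0 (by decide) (by decide) (by decide) rfl)
    (hc 3 5 2 (by decide) (by decide) (by decide) rfl)
    (hc 3 7 1 (by decide) (by decide) (by decide) rfl)
    (hc 4 6 3 (by decide) (by decide) (by decide) rfl)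
    (hc 5 7 4 (by decide) (by decide) (by decide) rfl)
  simp only [decide_eq_decide] at hcore
  obtain ⟨c1, c2, c3, c4, c5, c6, c7⟩ := hcore
  have hlow : ∀ x < 8, (S x ↔ S 0) := by
    intro x hx
    interval_cases x
    · exact Iff.rfl
    · exact c1
    · exact c2
    · exact c3
    · exact c4
    · exact c5
    · exact c6
    · exact c7
  -- the rigid part
  have hblob : ∀ k, k < 8 + 4 * m → (S k ↔ S 0) := by
    intro k
    induction k using Nat.strong_induction_on with
    | _ k ih =>
      intro hk
      by_cases hk8 : k < 8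
      · exact hlow k hk8
      · by_cases hk9 : k = 8
        · have h1 := Hs 6 7 8 (by omega) (by omega) (mid_67 (by omega))
          rw [hk9]
          exact same3 h1 (hlow 6 (by omega)) (hlow 7 (by omega))
        · have h1 := Hs (k % 2) (k - 1) k (by omega) (by omega) (mid_chain (by omega) hk)
          exact same3 h1 (ih (k % 2) (by omega) (by omega)) (ih (k - 1) (by omega) (by omega))
  -- the vertex `t`
  have ht : ¬ (S (8 + 4 * m) ↔ S 0) := by
    intro ht
    have hall : ∀ x < 9 + 8 * m, (S x ↔ S 0) := by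
      intro x hx
      by_cases h1 : x < 8 + 4 * m
      · exact hblob x h1
      · by_cases h2 : x = 8 + 4 * m
        · rw [h2]; exact ht
        · have h3 := Hs (8 + (x - (9 + 4 * m))) (8 + 4 * m) (9 + 4 * m + (x - (9 + 4 * m)))
            (by omega) (by omega) (mid_t (by omega))
          have e1 : 9 + 4 * m + (x - (9 + 4 * m)) = x := by omega
          rw [e1] at h3
          exact same3 h3 (hblob (8 + (x - (9 + 4 * m))) (by omega)) ht
    exact hSx2 ((hall x2 hx2).2 ((hall x1 hx1).1 hSx1))
  -- true occurrences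
  let o : ℕ → Prop := fun a => ¬ (S (9 + 4 * m + a) ↔ S 0)
  have hconf : ∀ a b, a < b → b < 3 * m → conf φ a b = true → ¬ (o a ∧ o b) := by
    intro a b hab hb hcf ⟨ha, hb'⟩
    have h1 := Hs _ _ _ (by omega) (by omega) (mid_conf hab hb hcf)
    exact opp3 h1 ha hb' Iff.rfl
  have hclause : ∀ j < m, o (3 * j) ∨ o (3 * j + 1) ∨ o (3 * j + 2) := by
    intro j hj
    by_contra hcon
    push Not at hcon
    obtain ⟨n0, n1, n2⟩ := hcon
    have h1 := Hs _ _ _ (by omega) (by omega) (mid_cl1 hj (conf_clause hφ hj))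
    have h2 := Hs _ _ _ (by omega) (by omega) (mid_cl2 hj)
    simp only [o, not_not] at n0 n1 n2
    exact ht (same3 h2 n2 (same3 h1 n0 n1))
  have hconf' : ∀ a b, a < 3 * m → b < 3 * m → (litA φ a).2 = (litA φ b).2 →
      (litA φ a).1 ≠ (litA φ b).1 → ¬ (o a ∧ o b) := by
    intro a b ha hb hv hs
    rcases lt_trichotomy a b with h1 | h1 | h1
    · refine hconf a b h1 hb ?_
      simp [conf, hv, hs]
    · rw [h1] at hs
      exact absurd rfl hs
    · have h2 := hconf b a h1 ha (by simp [conf, hv, Ne.symm hs])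
      exact fun h3 => h2 ⟨h3.2, h3.1⟩
  refine ⟨fun x => decide (∃ a < 3 * m, (litA φ a).2 = x ∧ (litA φ a).1 = true ∧ o a), ?_⟩
  have hlit : ∀ a < 3 * m, o a →
      decide (∃ b < 3 * m, (litA φ b).2 = (litA φ a).2 ∧ (litA φ b).1 = true ∧ o b) =
        (litA φ a).1 := by
    intro a ha hoa
    cases hs : (litA φ a).1 with
    | true =>
      rw [decide_eq_true_eq]
      exact ⟨a, ha, rfl, hs, hoa⟩
    | false =>
      rw [decide_eq_false_iff_not]
      rintro ⟨b, hb, h1, h2, h3⟩
      exact hconf' a b ha hb h1.symm (by rw [hs, h2]; simp) ⟨hoa, h3⟩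
  intro c hcm
  obtain ⟨j, hj, rfl⟩ := List.mem_iff_getElem.1 hcm
  rcases hclause j hj with h1 | h1 | h1
  · left
    have := hlit _ (by omega) h1
    rwa [litA0 hj] at this
  · right; left
    have := hlit _ (by omega) h1
    rwa [litA1 hj] at this
  · right; right
    have := hlit _ (by omega) h1
    rwa [litA2 hj] at this

/-- The truth value of an occurrence. -/
def Tr (φ : Fml) (τ : ℕ → Bool) (a : ℕ) : Prop := τ (litA φ a).2 = (litA φ a).1

/-- The part `S` given by an assignment. -/
def part (φ : Fml) (τ : ℕ → Bool) (x : ℕ) : Prop :=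
  if x < 8 + 4 * φ.length then False else if x = 8 + 4 * φ.length then True
  else if x < 9 + 7 * φ.length then Tr φ τ (x - (9 + 4 * φ.length))
  else Tr φ τ (3 * (x - (9 + 7 * φ.length))) ∨ Tr φ τ (3 * (x - (9 + 7 * φ.length)) + 1)

theorem part_low {τ : ℕ → Bool} {x : ℕ} (h : x < 8 + 4 * φ.length) : ¬ part φ τ x := by
  unfold part
  rw [if_pos h]
  exact fun h => h

theorem part_t {τ : ℕ → Bool} : part φ τ (8 + 4 * φ.length) := by
  unfold part
  rw [if_neg (by omega), if_pos rfl]
  trivial

theorem part_occ {τ : ℕ → Bool} {x : ℕ} (h1 : 9 + 4 * φ.length ≤ x) (h2 : x < 9 + 7 * φ.length) :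
    part φ τ x ↔ Tr φ τ (x - (9 + 4 * φ.length)) := by
  unfold part
  rw [if_neg (by omega), if_neg (by omega), if_pos h2]

theorem part_cl {τ : ℕ → Bool} {x : ℕ} (h1 : 9 + 7 * φ.length ≤ x) :
    part φ τ x ↔ Tr φ τ (3 * (x - (9 + 7 * φ.length))) ∨
      Tr φ τ (3 * (x - (9 + 7 * φ.length)) + 1) := by
  unfold part
  rw [if_neg (by omega), if_neg (by omega), if_neg (by omega)]

theorem complete (h : SAT3 φ) :
    ∃ S : ℕ → Prop, IsReduction (nF φ) (pathL (nF φ) (midF φ)) S := by
  obtain ⟨τ, hτ⟩ := h
  refine ⟨part φ τ, ?_⟩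
  rw [reduction_iff]
  unfold nF
  refine ⟨⟨_, by omega, part_t⟩, ⟨0, by omega, part_low (by omega)⟩, ?_⟩
  intro u v w huv hv hmid
  by_cases hv1 : v < 8 + 4 * φ.length
  · -- the rigid part
    have hw : w < 8 + 4 * φ.length := by
      by_cases hv8 : v < 8
      · by_cases h67 : u = 6 ∧ v = 7
        · unfold midF at hmid
          rw [if_pos hv8, if_pos h67] at hmid
          split_ifs at hmid with h0
          simp only [Option.some.injEq] at hmid
          omega
        · rw [midF_core hv8 h67] at hmid
          have h1 := core_good v hv8 u huv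
          rw [hmid] at h1
          simp only [Option.all_some, decide_eq_true_eq] at h1
          omega
      · unfold midF at hmid
        rw [if_neg hv8, if_pos hv1] at hmid
        split_ifs at hmid with h0
        simp only [Option.some.injEq] at hmid
        omega
    exact ⟨fun h => absurd h (part_low (by omega)), fun _ _ => part_low hw⟩
  · by_cases hv2 : v = 8 + 4 * φ.length
    · subst hv2
      exact ⟨fun h => absurd h (part_low huv), fun _ h => absurd part_t h⟩
    · by_cases hu : u < 9 + 4 * φ.length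
      · unfold midF at hmid
        rw [if_neg (by omega), if_neg hv1, if_neg hv2, if_pos hu] at hmid
        cases hmid
      · by_cases hv3 : v < 9 + 7 * φ.length
        · unfold midF at hmid
          rw [if_neg (by omega), if_neg hv1, if_neg hv2, if_neg hu, if_pos hv3] at hmid
          rw [part_occ (by omega) hv3, part_occ (by omega) (by omega)]
          split_ifs at hmid with g1 g2
          · simp only [Option.some.injEq] at hmid
            subst hmid
            refine ⟨fun h1 h2 => ?_, fun _ _ => part_low (by omega)⟩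
            unfold conf at g1
            unfold Tr at h1 h2
            simp only [Bool.and_eq_true, decide_eq_true_eq, bne_iff_ne, ne_eq] at g1
            exact absurd (h1.symm.trans ((congrArg τ g1.1).trans h2)) g1.2
          · simp only [Option.some.injEq] at hmid
            subst hmid
            rw [part_cl (by omega)]
            have e1 : 3 * (9 + 7 * φ.length + (u - (9 + 4 * φ.length)) / 3 -
                (9 + 7 * φ.length)) = u - (9 + 4 * φ.length) := by omega
            have e2 : v - (9 + 4 * φ.length) = u - (9 + 4 * φ.length) + 1 := by omega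
            rw [e1, e2]
            tauto
        · unfold midF at hmid
          rw [if_neg (by omega), if_neg hv1, if_neg hv2, if_neg hu, if_neg hv3] at hmid
          split_ifs at hmid with g1
          simp only [Option.some.injEq] at hmid
          subst hmid
          refine ⟨fun _ _ => part_t, ?_⟩
          rw [part_occ (by omega) (by omega), part_cl (by omega)]
          intro n2 n01
          exfalso
          set j := v - (9 + 7 * φ.length) with hj
          have hjm : j < φ.length := by omega
          have e1 : u - (9 + 4 * φ.length) = 3 * j + 2 := by omega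
          rw [e1] at n2
          have h1 := hτ _ (List.getElem_mem hjm)
          unfold Tr at n2 n01
          rw [litA2 hjm] at n2
          rw [litA0 hjm, litA1 hjm] at n01
          tauto

end Pool.Agent.R550.PS
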