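import Pool.Agent.R550.PS.Defs

/-!
# Path systems all of whose members have at most three vertices
-/

namespace Pool.Agent.R550.PS

open Pool.Agent.R550.GB

/-- The member joining `u < v`. -/
def pth (mid : ℕ → ℕ → Option ℕ) (u v : ℕ) : List ℕ :=
  match mid u v with
  | none => [u, v]
  | some w => [u, w, v]

/-- The adjacency lists. -/
def adjL (n : ℕ) (mid : ℕ → ℕ → Option ℕ) : List (List ℕ) :=
  (List.range n).map fun u => (List.range n).filter fun v => decide (u < v) && (mid u v).isNone

/-- The list of the paths. -/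
def pathL (n : ℕ) (mid : ℕ → ℕ → Option ℕ) : List (List ℕ) :=
  (List.range n).flatMap fun v => (List.range v).map fun u => pth mid u v

/-- The condition of consistency. -/
def Good (n : ℕ) (mid : ℕ → ℕ → Option ℕ) : Prop :=
  ∀ u v w, u < v → v < n → mid u v = some w → w < n ∧ w ≠ u ∧ w ≠ v ∧
    mid (min u w) (max u w) = none ∧ mid (min w v) (max w v) = none

variable {n : ℕ} {mid : ℕ → ℕ → Option ℕ}

theorem adjL_length : (adjL n mid).length = n := by simp [adjL]

theorem adjN_iff {u v : ℕ} (hu : u < n) (hv : v < n) (huv : u ≠ v) :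
    AdjN (adjL n mid) u v ↔ mid (min u v) (max u v) = none := by
  have hlen : (adjL n mid).length = n := adjL_length
  have key : ∀ (a : ℕ) (ha : a < (adjL n mid).length) (b : ℕ),
      b ∈ (adjL n mid)[a] ↔ b < n ∧ a < b ∧ mid a b = none := by
    intro a ha b
    unfold adjL
    simp only [List.getElem_map, List.getElem_range, List.mem_filter, List.mem_range,
      Bool.and_eq_true, decide_eq_true_eq, Option.isNone_iff_eq_none]
  unfold AdjN graph
  simp only [SimpleGraph.fromRel_adj, Fin.getElem_fin, key, ne_eq, Fin.mk.injEq, hlen]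
  constructor
  · rintro ⟨_, _, _, h | h⟩
    · rw [min_eq_left h.2.1.le, max_eq_right h.2.1.le]
      exact h.2.2
    · rw [min_eq_right h.2.1.le, max_eq_left h.2.1.le]
      exact h.2.2
  · intro h
    refine ⟨hu, hv, huv, ?_⟩
    rcases lt_or_gt_of_ne huv with h1 | h1
    · rw [min_eq_left h1.le, max_eq_right h1.le] at h
      exact Or.inl ⟨hv, h1, h⟩
    · rw [min_eq_right h1.le, max_eq_left h1.le] at h
      exact Or.inr ⟨hu, h1, h⟩

theorem mem_pathL {p : List ℕ} :
    p ∈ pathL n mid ↔ ∃ u v, u < v ∧ v < n ∧ p = pth mid u v := by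
  unfold pathL
  simp only [List.mem_flatMap, List.mem_range, List.mem_map]
  constructor
  · rintro ⟨v, hv, u, hu, rfl⟩
    exact ⟨u, v, hu, hv, rfl⟩
  · rintro ⟨u, v, hu, hv, rfl⟩
    exact ⟨v, hv, u, hu, rfl⟩

theorem pth_head (u v : ℕ) : (pth mid u v).head? = some u := by
  unfold pth
  cases mid u v <;> rfl

theorem pth_last (u v : ℕ) : (pth mid u v).getLast? = some v := by
  unfold pth
  cases mid u v <;> rfl

theorem pth_inj {u v u' v' : ℕ} (h : pth mid u v = pth mid u' v') : u = u' ∧ v = v' := by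
  have h1 := pth_head (mid := mid) u v
  have h2 := pth_last (mid := mid) u v
  rw [h, pth_head] at h1
  rw [h, pth_last] at h2
  exact ⟨(Option.some.inj h1).symm, (Option.some.inj h2).symm⟩

theorem pathL_nodup : (pathL n mid).Nodup := by
  unfold pathL
  rw [List.nodup_flatMap]
  constructor
  · intro v _
    exact List.Nodup.map (fun u u' h => (pth_inj h).1) List.nodup_range
  · refine (List.nodup_range (n := n)).imp fun {v v'} hne p hp hp' => ?_
    obtain ⟨u, _, rfl⟩ := List.mem_map.1 hp
    obtain ⟨u', _, h⟩ := List.mem_map.1 hp'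
    exact hne (pth_inj h).2.symm

theorem joins_pth {u v a b : ℕ} :
    Joins (pth mid u v) a b ↔ (a = u ∧ b = v) ∨ (a = v ∧ b = u) := by
  unfold Joins
  rw [pth_head, pth_last]
  simp only [Option.some.injEq]
  constructor
  · rintro (⟨rfl, rfl⟩ | ⟨rfl, rfl⟩)
    · exact Or.inl ⟨rfl, rfl⟩
    · exact Or.inr ⟨rfl, rfl⟩
  · rintro (⟨rfl, rfl⟩ | ⟨rfl, rfl⟩)
    · exact Or.inl ⟨rfl, rfl⟩
    · exact Or.inr ⟨rfl, rfl⟩

theorem pathSystem (h : Good n mid) : PathSystem (adjL n mid) (pathL n mid) := by
  refine ⟨?_, pathL_nodup, ?_⟩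
  · intro p hp
    obtain ⟨u, v, huv, hv, rfl⟩ := mem_pathL.1 hp
    have hlen : (adjL n mid).length = n := adjL_length
    cases hm : mid u v with
    | none =>
      have hp' : pth mid u v = [u, v] := by unfold pth; rw [hm]
      rw [hp']
      refine ⟨?_, ?_, ?_, le_rfl⟩
      · intro x hx
        rw [hlen]
        simp only [List.mem_cons, List.not_mem_nil, or_false] at hx
        omega
      · simp [huv.ne]
      · rw [List.isChain_pair, adjN_iff (by omega) hv huv.ne, min_eq_left huv.le,
          max_eq_right huv.le]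
        exact hm
    | some w =>
      have hp' : pth mid u v = [u, w, v] := by unfold pth; rw [hm]
      obtain ⟨hw, hwu, hwv, h1, h2⟩ := h u v w huv hv hm
      rw [hp']
      refine ⟨?_, ?_, ?_, by simp⟩
      · intro x hx
        rw [hlen]
        simp only [List.mem_cons, List.not_mem_nil, or_false] at hx
        omega
      · simp [huv.ne, Ne.symm hwu, hwv]
      · rw [List.isChain_cons_cons, List.isChain_pair, adjN_iff (by omega) hw (Ne.symm hwu),
          adjN_iff hw hv hwv]
        exact ⟨h1, h2⟩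
  · intro u v hu hv huv
    rw [adjL_length] at hu hv
    rcases lt_or_gt_of_ne huv with h1 | h1
    · refine ⟨pth mid u v, ⟨mem_pathL.2 ⟨u, v, h1, hv, rfl⟩, joins_pth.2 (Or.inl ⟨rfl, rfl⟩)⟩, ?_⟩
      rintro p ⟨hp, hj⟩
      obtain ⟨a, b, hab, hb, rfl⟩ := mem_pathL.1 hp
      rcases joins_pth.1 hj with ⟨rfl, rfl⟩ | ⟨rfl, rfl⟩
      · rfl
      · omega
    · refine ⟨pth mid v u, ⟨mem_pathL.2 ⟨v, u, h1, hu, rfl⟩, joins_pth.2 (Or.inr ⟨rfl, rfl⟩)⟩, ?_⟩
      rintro p ⟨hp, hj⟩
      obtain ⟨a, b, hab, hb, rfl⟩ := mem_pathL.1 hp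
      rcases joins_pth.1 hj with ⟨rfl, rfl⟩ | ⟨rfl, rfl⟩
      · omega
      · rfl

theorem edge_mem {u v : ℕ} (hu : u < n) (hv : v < n) (huv : u ≠ v)
    (h : mid (min u v) (max u v) = none) :
    [u, v] ∈ pathL n mid ∨ [u, v].reverse ∈ pathL n mid := by
  rcases lt_or_gt_of_ne huv with h1 | h1
  · rw [min_eq_left h1.le, max_eq_right h1.le] at h
    left
    refine mem_pathL.2 ⟨u, v, h1, hv, ?_⟩
    unfold pth
    rw [h]
  · rw [min_eq_right h1.le, max_eq_left h1.le] at h
    right
    refine mem_pathL.2 ⟨v, u, h1, hu, ?_⟩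
    unfold pth
    rw [h]
    rfl

theorem consistent (h : Good n mid) : Consistent (pathL n mid) := by
  intro p hp q hq hq2
  obtain ⟨u, v, huv, hv, rfl⟩ := mem_pathL.1 hp
  cases hm : mid u v with
  | none =>
    have hp' : pth mid u v = [u, v] := by unfold pth; rw [hm]
    have h1 : q = pth mid u v := by
      refine hq.eq_of_length_le ?_
      rw [hp']
      exact hq2
    rw [h1]
    exact Or.inl hp
  | some w =>
    have hp' : pth mid u v = [u, w, v] := by unfold pth; rw [hm]
    obtain ⟨hw, hwu, hwv, h1, h2⟩ := h u v w huv hv hm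
    rw [hp'] at hq
    by_cases h3 : 3 ≤ q.length
    · left
      have h4 : q = [u, w, v] := hq.eq_of_length_le h3
      rw [h4, ← hp']
      exact hp
    · rcases List.infix_cons_iff.1 hq with h4 | h4
      · -- a prefix
        have h5 : q = [u, w] := by
          have h6 : [u, w] <+: [u, w, v] := ⟨[v], rfl⟩
          exact (List.prefix_of_prefix_length_le h4 h6 (by simp; omega)).eq_of_length
            (by simp; omega)
        rw [h5]
        exact edge_mem (by omega) hw (Ne.symm hwu) h1
      · have h5 : q = [w, v] := h4.eq_of_length_le hq2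
        rw [h5]
        exact edge_mem hw hv hwv h2

/-- Reductions as colourings. -/
theorem reduction_iff (S : ℕ → Prop) : IsReduction n (pathL n mid) S ↔
    (∃ u < n, S u) ∧ (∃ u < n, ¬ S u) ∧ ∀ u v w, u < v → v < n → mid u v = some w →
      (S u → S v → S w) ∧ (¬ S u → ¬ S v → ¬ S w) := by
  unfold IsReduction
  refine and_congr_right fun _ => and_congr_right fun _ => ?_
  constructor
  · intro h u v w huv hv hm
    have hp' : pth mid u v = [u, w, v] := by unfold pth; rw [hm]
    have h1 := h _ (mem_pathL.2 ⟨u, v, huv, hv, rfl⟩) u v (joins_pth.2 (Or.inl ⟨rfl, rfl⟩))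
    rw [hp'] at h1
    exact ⟨fun a b => h1.1 a b w (by simp), fun a b => h1.2 a b w (by simp)⟩
  · intro h p hp a b hj
    obtain ⟨u, v, huv, hv, rfl⟩ := mem_pathL.1 hp
    have hS : (S a ↔ S u) ∧ (S b ↔ S v) ∨ (S a ↔ S v) ∧ (S b ↔ S u) := by
      rcases joins_pth.1 hj with ⟨rfl, rfl⟩ | ⟨rfl, rfl⟩
      · exact Or.inl ⟨Iff.rfl, Iff.rfl⟩
      · exact Or.inr ⟨Iff.rfl, Iff.rfl⟩
    cases hm : mid u v with
    | none =>
      have hp' : pth mid u v = [u, v] := by unfold pth; rw [hm]
      rw [hp']
      refine ⟨fun ha hb x hx => ?_, fun ha hb x hx => ?_⟩ <;>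
        simp only [List.mem_cons, List.not_mem_nil, or_false] at hx <;>
        rcases hx with rfl | rfl <;> tauto
    | some w =>
      have hp' : pth mid u v = [u, w, v] := by unfold pth; rw [hm]
      have h1 := h u v w huv hv hm
      rw [hp']
      refine ⟨fun ha hb x hx => ?_, fun ha hb x hx => ?_⟩ <;>
        simp only [List.mem_cons, List.not_mem_nil, or_false] at hx <;>
        rcases hx with rfl | rfl | rfl <;> tauto

end Pool.Agent.R550.PS
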