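import Pool.Agent.R550.PS.Mid
import Pool.Agent.NPC.Sat

/-!
# The reduction from 3-satisfiability
-/

namespace Pool.Agent.R550.PS

open Pool.Agent.NPC

/-- A formula. -/
abbrev Fml := List (Lit ℕ × Lit ℕ × Lit ℕ)

/-- The literal at the occurrence `a` (the `a % 3`-th literal of the clause `a / 3`). -/
def litA (φ : Fml) (a : ℕ) : Bool × ℕ :=
  if a % 3 = 0 then (φ.getD (a / 3) ((true, 0), (true, 0), (true, 0))).1
  else if a % 3 = 1 then (φ.getD (a / 3) ((true, 0), (true, 0), (true, 0))).2.1
  else (φ.getD (a / 3) ((true, 0), (true, 0), (true, 0))).2.2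

/-- Two occurrences are complementary. -/
def conf (φ : Fml) (a b : ℕ) : Bool :=
  decide ((litA φ a).2 = (litA φ b).2) && ((litA φ a).1 != (litA φ b).1)

/-- An irreducible path system on `0, …, 7`: the midpoints of its paths of length two. -/
def core (u v : ℕ) : Option ℕ :=
  if u = 0 ∧ v = 3 then some 4 else if u = 0 ∧ v = 5 then some 6
  else if u = 1 ∧ v = 2 then some 0 else if u = 1 ∧ v = 4 then some 5
  else if u = 2 ∧ v = 4 then some 7 else if u = 2 ∧ v = 6 then some 0
  else if u = 3 ∧ v = 5 then some 2 else if u = 3 ∧ v = 7 then some 1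
  else if u = 4 ∧ v = 6 then some 3 else if u = 5 ∧ v = 7 then some 4 else none

/-- The midpoints: `0, …, 7 + M` is the rigid part, `8 + M` the vertex `t`, `9 + M + a` the vertices of
the occurrences `a < 3 m` and the clause vertices. -/
def midF (φ : Fml) (u v : ℕ) : Option ℕ :=
  if v < 8 then (if u = 6 ∧ v = 7 then (if 0 < φ.length then some 8 else none) else core u v)
  else if v < 8 + 4 * φ.length then
    (if u = (v + 1) % 2 ∧ v + 1 < 8 + 4 * φ.length then some (v + 1) else none)
  else if v = 8 + 4 * φ.length then (if 8 ≤ u then some (u + 1 + 4 * φ.length) else none)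
  else if u < 9 + 4 * φ.length then none
  else if v < 9 + 7 * φ.length then
    (if conf φ (u - (9 + 4 * φ.length)) (v - (9 + 4 * φ.length)) = true then some 0
      else if (u - (9 + 4 * φ.length)) % 3 = 0 ∧ v = u + 1 then
        some (9 + 7 * φ.length + (u - (9 + 4 * φ.length)) / 3) else none)
  else (if u = 11 + 4 * φ.length + 3 * (v - (9 + 7 * φ.length)) then
    some (8 + 4 * φ.length) else none)

/-- The number of vertices. -/
def nF (φ : Fml) : ℕ := 9 + 8 * φ.length

theorem core_good : ∀ v < 8, ∀ u < v, (core u v).all (fun w => decide (w < 8 ∧ w ≠ u ∧ w ≠ v ∧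
    ¬ (min u w = 6 ∧ max u w = 7) ∧ core (min u w) (max u w) = none ∧
    ¬ (min w v = 6 ∧ max w v = 7) ∧ core (min w v) (max w v) = none)) = true := by
  decide

theorem midF_core {φ : Fml} {u v : ℕ} (hv : v < 8) (h : ¬ (u = 6 ∧ v = 7)) :
    midF φ u v = core u v := by
  unfold midF
  rw [if_pos hv, if_neg h]

theorem good (φ : Fml) : Good (nF φ) (midF φ) := by
  intro u v w huv hv h
  unfold nF at *
  by_cases hv8 : v < 8
  · by_cases h67 : u = 6 ∧ v = 7
    · obtain ⟨rfl, rfl⟩ := h67
      have h1 : 0 < φ.length ∧ w = 8 := by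
        unfold midF at h
        simp only [Nat.reduceLT, if_true, and_self] at h
        by_cases h0 : 0 < φ.length
        · rw [if_pos h0] at h
          exact ⟨h0, (Option.some.inj h).symm⟩
        · rw [if_neg h0] at h
          cases h
      obtain ⟨h0, rfl⟩ := h1
      refine ⟨by omega, by omega, by omega, ?_, ?_⟩
      · have e1 : min 6 8 = 6 := rfl
        have e2 : max 6 8 = 8 := rfl
        rw [e1, e2]
        unfold midF
        split_ifs <;> first | rfl | omega
      · have e1 : min 8 7 = 7 := rfl
        have e2 : max 8 7 = 8 := rfl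
        rw [e1, e2]
        unfold midF
        split_ifs <;> first | rfl | omega
    · rw [midF_core hv8 h67] at h
      have h1 := core_good v hv8 u huv
      rw [h] at h1
      simp only [Option.all_some, decide_eq_true_eq] at h1
      obtain ⟨h2, h3, h4, h5, h6, h7, h8⟩ := h1
      refine ⟨by omega, h3, h4, ?_, ?_⟩
      · rw [midF_core (by omega) h5]
        exact h6
      · rw [midF_core (by omega) h7]
        exact h8
  · have key : (w < 9 + 8 * φ.length ∧ w ≠ u ∧ w ≠ v) ∧
        (∀ a b, a < b → (a = u ∧ b = w ∨ a = w ∧ b = u ∨ a = w ∧ b = v ∨ a = v ∧ b = w) →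
          midF φ a b = none) := by
      unfold midF at h
      split_ifs at h with g1 g2 g3 g4 g5 g6 g7 g8 g9 <;>
        simp only [Option.some.injEq, reduceCtorEq] at h
      all_goals
        subst h
        refine ⟨⟨by omega, by omega, by omega⟩, ?_⟩
        intro a b hab hcase
        unfold midF
        rcases hcase with ⟨rfl, rfl⟩ | ⟨rfl, rfl⟩ | ⟨rfl, rfl⟩ | ⟨rfl, rfl⟩ <;>
          split_ifs <;> first | rfl | omega
    obtain ⟨⟨h1, h2, h3⟩, h4⟩ := key
    refine ⟨h1, h2, h3, ?_, ?_⟩
    · rcases lt_or_gt_of_ne h2 with h5 | h5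
      · rw [min_eq_right h5.le, max_eq_left h5.le]
        exact h4 _ _ h5 (by tauto)
      · rw [min_eq_left h5.le, max_eq_right h5.le]
        exact h4 _ _ h5 (by tauto)
    · rcases lt_or_gt_of_ne h3 with h5 | h5
      · rw [min_eq_left h5.le, max_eq_right h5.le]
        exact h4 _ _ h5 (by tauto)
      · rw [min_eq_right h5.le, max_eq_left h5.le]
        exact h4 _ _ h5 (by tauto)

end Pool.Agent.R550.PS
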